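import Pool.Agent.Helper21.EM.Stmts
import Pool.Agent.Helper80.MT10.SHF
import Pool.Agent.Helper5.MT9.GRA
import Pool.Agent.Helper2.MT9.TOP

/-!
# Project EM, row NRM: the operator of an isolated type normalises `L`
-/

set_option autoImplicit false

open Matrix MT

namespace EM25

variable {K : Type} [Field K] {n : ℕ}

/-- a graded space of matrices is stable under the other gradings which are additive -/
theorem brk_other [CharZero K] (a : Submodule K (Matrix (Fin n) (Fin n) K)) (d g : Fin n → ℤ)
    (hgr : ∀ A ∈ a, Matrix.diagonal (fun j => (d j : K)) * A -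
      A * Matrix.diagonal (fun j => (d j : K)) ∈ a)
    (hg : ∀ i j k l, d i - d j = d k - d l → g i - g j = g k - g l)
    (A : Matrix (Fin n) (Fin n) K) (hA : A ∈ a) :
    Matrix.diagonal (fun j => (g j : K)) * A - A * Matrix.diagonal (fun j => (g j : K)) ∈ a := by
  classical
  have hcmp := st_GRA K n a d hgr A hA
  set T : Finset ℤ := Finset.univ.image (fun p : Fin n × Fin n => d p.1 - d p.2) with hT
  obtain ⟨φ, hφ⟩ : ∃ φ : ℤ → ℤ, ∀ i j, φ (d i - d j) = g i - g j := by
    refine ⟨fun x => if h : ∃ p : Fin n × Fin n, d p.1 - d p.2 = x then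
      g h.choose.1 - g h.choose.2 else 0, fun i j => ?_⟩
    have h : ∃ p : Fin n × Fin n, d p.1 - d p.2 = d i - d j := ⟨(i, j), rfl⟩
    simp only [dif_pos h]
    exact hg _ _ _ _ h.choose_spec
  have h1 : ∑ x ∈ T, (φ x : K) • MT.cmp d x A ∈ a :=
    a.sum_mem fun x _ => a.smul_mem _ (hcmp x)
  have h2 : Matrix.diagonal (fun j => (g j : K)) * A - A * Matrix.diagonal (fun j => (g j : K)) =
      ∑ x ∈ T, (φ x : K) • MT.cmp d x A := by
    ext i j
    rw [Matrix.sub_apply, Matrix.diagonal_mul, Matrix.mul_diagonal, Matrix.sum_apply,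
      Finset.sum_eq_single (d i - d j)]
    · rw [Matrix.smul_apply, hφ]
      simp only [MT.cmp, Matrix.of_apply, if_true, smul_eq_mul]
      push_cast
      ring
    · intro x _ hx
      rw [Matrix.smul_apply]
      simp only [MT.cmp, Matrix.of_apply]
      rw [if_neg (fun h => hx h.symm), smul_zero]
    · intro h
      exact absurd (Finset.mem_image.2 ⟨(i, j), Finset.mem_univ _, rfl⟩) h
  rw [h2]
  exact h1

theorem coe_mul_inv (P : Matrix.GeneralLinearGroup (Fin n) K) :
    (P : Matrix (Fin n) (Fin n) K) *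
      ((P⁻¹ : Matrix.GeneralLinearGroup (Fin n) K) : Matrix (Fin n) (Fin n) K) = 1 := by
  rw [← Matrix.GeneralLinearGroup.coe_mul, mul_inv_cancel, Matrix.GeneralLinearGroup.coe_one]

theorem coe_inv_mul (P : Matrix.GeneralLinearGroup (Fin n) K) :
    ((P⁻¹ : Matrix.GeneralLinearGroup (Fin n) K) : Matrix (Fin n) (Fin n) K) *
      (P : Matrix (Fin n) (Fin n) K) = 1 := by
  rw [← Matrix.GeneralLinearGroup.coe_mul, inv_mul_cancel, Matrix.GeneralLinearGroup.coe_one]

/-- `dg P s` is skew exactly when the form pairs opposite degrees -/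
theorem dg_skew (ψ : Matrix (Fin n) (Fin n) K) (P : Matrix.GeneralLinearGroup (Fin n) K)
    (s : Fin n → ℤ) :
    (dg P s).transpose * ψ + ψ * dg P s = 0 ↔
      ∀ i j, ((s i : K) + (s j : K)) *
        ((P : Matrix (Fin n) (Fin n) K).transpose * ψ * (P : Matrix (Fin n) (Fin n) K)) i j = 0 := by
  set p : Matrix (Fin n) (Fin n) K := (P : Matrix (Fin n) (Fin n) K) with hp
  set q : Matrix (Fin n) (Fin n) K :=
    ((P⁻¹ : Matrix.GeneralLinearGroup (Fin n) K) : Matrix (Fin n) (Fin n) K) with hq
  have hpq : p * q = 1 := coe_mul_inv P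
  have hqp : q * p = 1 := coe_inv_mul P
  have hTpq : q.transpose * p.transpose = 1 := by
    rw [← Matrix.transpose_mul, hpq, Matrix.transpose_one]
  have hTqp : p.transpose * q.transpose = 1 := by
    rw [← Matrix.transpose_mul, hqp, Matrix.transpose_one]
  set D : Matrix (Fin n) (Fin n) K := Matrix.diagonal (fun j => (s j : K)) with hD
  set Ψ := p.transpose * ψ * p with hΨ
  have hdg : dg P s = p * D * q := rfl
  have h1 : p.transpose * ((dg P s).transpose * ψ + ψ * dg P s) * p = D * Ψ + Ψ * D := by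
    rw [hdg, hΨ, Matrix.mul_add, Matrix.add_mul, Matrix.transpose_mul, Matrix.transpose_mul]
    have hDt : D.transpose = D := by rw [hD, Matrix.diagonal_transpose]
    rw [hDt]
    have e1 : p.transpose * (q.transpose * (D * p.transpose) * ψ) * p =
        (p.transpose * q.transpose) * (D * (p.transpose * ψ * p)) := by
      simp only [Matrix.mul_assoc]
    have e2 : p.transpose * (ψ * (p * D * q)) * p = p.transpose * ψ * p * D * (q * p) := by
      simp only [Matrix.mul_assoc]
    rw [e1, e2, hTqp, hqp, Matrix.one_mul, Matrix.mul_one]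
  have h2 : (dg P s).transpose * ψ + ψ * dg P s = q.transpose * (D * Ψ + Ψ * D) * q := by
    rw [← h1]
    have e1 : q.transpose * (p.transpose * ((dg P s).transpose * ψ + ψ * dg P s) * p) * q =
        (q.transpose * p.transpose) * ((dg P s).transpose * ψ + ψ * dg P s) * (p * q) := by
      simp only [Matrix.mul_assoc]
    rw [e1, hTpq, hpq, Matrix.one_mul, Matrix.mul_one]
  have h3 : ∀ i j, (D * Ψ + Ψ * D) i j = ((s i : K) + (s j : K)) * Ψ i j := by
    intro i j
    rw [Matrix.add_apply, hD, Matrix.diagonal_mul, Matrix.mul_diagonal]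
    ring
  constructor
  · intro h i j
    rw [← h3, ← h1, h, Matrix.mul_zero, Matrix.zero_mul, Matrix.zero_apply]
  · intro h
    have h4 : D * Ψ + Ψ * D = 0 := by
      ext i j
      rw [h3, h, Matrix.zero_apply]
    rw [h2, h4, Matrix.mul_zero, Matrix.zero_mul]

end EM25

open EM25 in
/-- NRM -/
theorem EM.st_NRM : EM.ST_NRM := by
  classical
  intro K _ _ n w m h ψ L P hdet hsym hbrk hiso hgr hm hI
  set p : Matrix (Fin n) (Fin n) K := (P : Matrix (Fin n) (Fin n) K) with hp
  set q : Matrix (Fin n) (Fin n) K :=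
    ((P⁻¹ : Matrix.GeneralLinearGroup (Fin n) K) : Matrix (Fin n) (Fin n) K) with hq
  have hpq : p * q = 1 := coe_mul_inv P
  have hqp : q * p = 1 := coe_inv_mul P
  obtain ⟨d, hd⟩ : ∃ d : Fin n → ℤ, d = fun j => 2 * (h j : ℤ) - (w : ℤ) := ⟨_, rfl⟩
  have hdj : ∀ j, d j = 2 * (h j : ℤ) - (w : ℤ) := fun j => by rw [hd]
  rw [← hd] at hgr
  set Ψ := p.transpose * ψ * p with hΨ
  -- the form pairs opposite degrees
  have hpair0 : ∀ i j, Ψ i j ≠ 0 → d i + d j = 0 := by
    intro i j hij
    have h1 := (dg_skew ψ P d).1 (hiso _ hgr) i j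
    rcases mul_eq_zero.1 h1 with h2 | h2
    · exact_mod_cast h2
    · exact absurd h2 hij
  have hpair : ∀ i j, Ψ i j ≠ 0 → h i + h j = w := by
    intro i j hij
    have h1 := hpair0 i j hij
    rw [hdj, hdj] at h1
    omega
  have hΨdet : Ψ.det ≠ 0 := by
    rw [hΨ, Matrix.det_mul, Matrix.det_mul, Matrix.det_transpose]
    have hpd : p.det ≠ 0 := by
      intro h0
      have h1 : (p * q).det = 0 := by rw [Matrix.det_mul, h0, zero_mul]
      rw [hpq, Matrix.det_one] at h1
      exact one_ne_zero h1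
    exact mul_ne_zero (mul_ne_zero hpd hdet) hpd
  obtain ⟨σ, hσ⟩ := Top9.exists_perm Ψ d hΨdet hpair0
  -- the operator
  obtain ⟨c, hc⟩ : ∃ c : ℤ → ℤ, ∀ x, c x = 0 * x +
      if x = (2 * (m : ℤ) - (w : ℤ)) then 1 else if x = -(2 * (m : ℤ) - (w : ℤ)) then -1 else 0 :=
    ⟨_, fun _ => rfl⟩
  have hIso : IsoZ d (2 * (m : ℤ) - (w : ℤ)) := by
    intro i j k h1 h2 h3
    rw [hdj] at h1 h2 h3
    obtain ⟨e1, e2, e3⟩ := hI i j k ⟨by omega, by omega⟩ ⟨by omega, by omega⟩ ⟨by omega, by omega⟩
    rw [hdj, hdj, hdj]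
    exact ⟨by omega, by omega, by omega⟩
  obtain ⟨hodd, hadd⟩ := st_SHF n d (2 * (m : ℤ) - (w : ℤ)) (by omega) (fun i => ⟨σ i, hσ i⟩) hIso
    0 1 c hc
  have hsg : ∀ j, c (d j) = sgm w m h j := by
    intro j
    rw [hc, hdj]
    unfold sgm
    split_ifs <;> omega
  -- conjugation
  let cj : Matrix (Fin n) (Fin n) K →ₗ[K] Matrix (Fin n) (Fin n) K :=
    { toFun := fun X => p * X * q
      map_add' := fun X Y => by rw [Matrix.mul_add, Matrix.add_mul]
      map_smul' := fun c X => by
        rw [Matrix.mul_smul, Matrix.smul_mul]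
        rfl }
  have hcj : ∀ X, cj X = p * X * q := fun X => rfl
  have hmul : ∀ X Y : Matrix (Fin n) (Fin n) K, (p * X * q) * (p * Y * q) = p * (X * Y) * q := by
    intro X Y
    have e1 : (p * X * q) * (p * Y * q) = p * X * (q * p) * (Y * q) := by
      simp only [Matrix.mul_assoc]
    rw [e1, hqp, Matrix.mul_one]
    simp only [Matrix.mul_assoc]
  have hgr' : ∀ A ∈ L.comap cj, Matrix.diagonal (fun j => (d j : K)) * A -
      A * Matrix.diagonal (fun j => (d j : K)) ∈ L.comap cj := by
    intro A hA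
    rw [Submodule.mem_comap, hcj] at hA ⊢
    have h1 := hbrk _ hgr _ hA
    have h2 : dg P d * (p * A * q) - (p * A * q) * dg P d =
        p * (Matrix.diagonal (fun j => (d j : K)) * A - A * Matrix.diagonal (fun j => (d j : K))) *
          q := by
      have e : dg P d = p * Matrix.diagonal (fun j => (d j : K)) * q := rfl
      rw [e, hmul, hmul, Matrix.mul_sub, Matrix.sub_mul]
    rw [← h2]
    exact h1
  refine ⟨?_, ?_, hpair, ?_⟩
  · intro A hA
    have h1 : q * A * p ∈ L.comap cj := by
      rw [Submodule.mem_comap, hcj]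
      have e1 : p * (q * A * p) * q = (p * q) * A * (p * q) := by simp only [Matrix.mul_assoc]
      rw [e1, hpq, Matrix.one_mul, Matrix.mul_one]
      exact hA
    have h2 := brk_other (L.comap cj) d (sgm w m h) hgr'
      (fun i j k l e => by rw [← hsg, ← hsg, ← hsg, ← hsg]; exact hadd i j k l e) _ h1
    rw [Submodule.mem_comap, hcj, Matrix.mul_sub, Matrix.sub_mul] at h2
    have e : dg P (sgm w m h) = p * Matrix.diagonal (fun j => (sgm w m h j : K)) * q := rfl
    have e1 : p * (Matrix.diagonal (fun j => (sgm w m h j : K)) * (q * A * p)) * q =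
        dg P (sgm w m h) * A := by
      rw [e]
      have e2 : p * (Matrix.diagonal (fun j => (sgm w m h j : K)) * (q * A * p)) * q =
        p * Matrix.diagonal (fun j => (sgm w m h j : K)) * q * A * (p * q) := by
        simp only [Matrix.mul_assoc]
      rw [e2, hpq, Matrix.mul_one]
    have e3 : p * (q * A * p * Matrix.diagonal (fun j => (sgm w m h j : K))) * q =
        A * dg P (sgm w m h) := by
      rw [e]
      have e2 : p * (q * A * p * Matrix.diagonal (fun j => (sgm w m h j : K))) * q =
        (p * q) * (A * (p * Matrix.diagonal (fun j => (sgm w m h j : K)) * q)) := by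
        simp only [Matrix.mul_assoc]
      rw [e2, hpq, Matrix.one_mul]
    rw [e1, e3] at h2
    exact h2
  · rw [dg_skew]
    intro i j
    by_cases hij : Ψ i j = 0
    · exact mul_eq_zero_of_right _ hij
    · have h1 := hpair0 i j hij
      have h2 : d j = - d i := by omega
      have h3 : sgm w m h i + sgm w m h j = 0 := by
        rw [← hsg, ← hsg, h2, hodd]
        ring
      have h4 : ((sgm w m h i : ℤ) : K) + ((sgm w m h j : ℤ) : K) = 0 := by exact_mod_cast h3
      rw [h4, zero_mul]
  · refine Finset.card_nbij' (fun j => σ j) (fun j => σ.symm j) ?_ ?_ ?_ ?_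
    · intro j hj
      simp only [Finset.coe_filter, Finset.mem_univ, true_and, Set.mem_ofPred_eq] at hj ⊢
      have h1 := hσ j
      rw [hdj, hdj] at h1
      omega
    · intro j hj
      simp only [Finset.coe_filter, Finset.mem_univ, true_and, Set.mem_ofPred_eq] at hj ⊢
      have h1 := hσ (σ.symm j)
      rw [Equiv.apply_symm_apply, hdj, hdj] at h1
      omega
    · intro j _
      exact σ.symm_apply_apply j
    · intro j _
      exact σ.apply_symm_apply j
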