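import Pool.Agent.Helper21.EM.Stmts4
import Pool.Agent.Helper72.D2.PSD
import Pool.Agent.Helper84.D2.TNT

/-!
# Project EM, row BLK: isometries which preserve the blocks
-/

set_option autoImplicit false

open Matrix Pool.Agent.Helper82.AHS

namespace EM25

variable {K : Type} [Field K] {r : ℕ}

/-- the projector onto the block with label `a` -/
noncomputable def blkE (P : GL (Fin r) K) (cl : Fin r → Fin r) (a : Fin r) :
    Matrix (Fin r) (Fin r) K :=
  (P : Matrix (Fin r) (Fin r) K) * diagonal (fun j => if cl j = a then (1 : K) else 0) *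
    ((P⁻¹ : GL (Fin r) K) : Matrix (Fin r) (Fin r) K)

theorem blk_coe_mul_inv (P : GL (Fin r) K) :
    (P : Matrix (Fin r) (Fin r) K) * ((P⁻¹ : GL (Fin r) K) : Matrix (Fin r) (Fin r) K) = 1 := by
  rw [← Matrix.GeneralLinearGroup.coe_mul, mul_inv_cancel, Matrix.GeneralLinearGroup.coe_one]

theorem blk_coe_inv_mul (P : GL (Fin r) K) :
    ((P⁻¹ : GL (Fin r) K) : Matrix (Fin r) (Fin r) K) * (P : Matrix (Fin r) (Fin r) K) = 1 := by
  rw [← Matrix.GeneralLinearGroup.coe_mul, inv_mul_cancel, Matrix.GeneralLinearGroup.coe_one]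

/-- conjugation by `P` is multiplicative -/
theorem blk_conj_mul (P : GL (Fin r) K) (X Y : Matrix (Fin r) (Fin r) K) :
    ((P : Matrix (Fin r) (Fin r) K) * X * ((P⁻¹ : GL (Fin r) K) : Matrix (Fin r) (Fin r) K)) *
      ((P : Matrix (Fin r) (Fin r) K) * Y * ((P⁻¹ : GL (Fin r) K) : Matrix (Fin r) (Fin r) K)) =
    (P : Matrix (Fin r) (Fin r) K) * (X * Y) *
      ((P⁻¹ : GL (Fin r) K) : Matrix (Fin r) (Fin r) K) := by
  have e1 : ((P : Matrix (Fin r) (Fin r) K) * X *
      ((P⁻¹ : GL (Fin r) K) : Matrix (Fin r) (Fin r) K)) *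
      ((P : Matrix (Fin r) (Fin r) K) * Y * ((P⁻¹ : GL (Fin r) K) : Matrix (Fin r) (Fin r) K)) =
      (P : Matrix (Fin r) (Fin r) K) * X * (((P⁻¹ : GL (Fin r) K) : Matrix (Fin r) (Fin r) K) *
        (P : Matrix (Fin r) (Fin r) K)) * (Y * ((P⁻¹ : GL (Fin r) K) :
          Matrix (Fin r) (Fin r) K)) := by
    simp only [Matrix.mul_assoc]
  rw [e1, blk_coe_inv_mul, Matrix.mul_one]
  simp only [Matrix.mul_assoc]

/-- the projectors commute with the matrices which preserve the blocks -/
theorem blkE_comm (P : GL (Fin r) K) (cl : Fin r → Fin r) (a : Fin r)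
    (g : Matrix (Fin r) (Fin r) K)
    (hg : ∀ i j, (((P⁻¹ : GL (Fin r) K) : Matrix (Fin r) (Fin r) K) * g *
      (P : Matrix (Fin r) (Fin r) K)) i j ≠ 0 → cl i = cl j) :
    blkE P cl a * g = g * blkE P cl a := by
  set p : Matrix (Fin r) (Fin r) K := (P : Matrix (Fin r) (Fin r) K) with hp
  set q : Matrix (Fin r) (Fin r) K := ((P⁻¹ : GL (Fin r) K) : Matrix (Fin r) (Fin r) K) with hq
  have hpq : p * q = 1 := blk_coe_mul_inv P
  set D : Matrix (Fin r) (Fin r) K := diagonal (fun j => if cl j = a then (1 : K) else 0) with hD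
  have h1 : D * (q * g * p) = (q * g * p) * D := by
    ext i j
    rw [hD, Matrix.diagonal_mul, Matrix.mul_diagonal]
    by_cases h0 : (q * g * p) i j = 0
    · rw [h0, mul_zero, zero_mul]
    · have h2 := hg i j h0
      rw [h2, mul_comm]
  have e : blkE P cl a = p * D * q := rfl
  have e1 : p * D * q * g = p * (D * (q * g * p)) * q := by
    have : p * (D * (q * g * p)) * q = p * D * q * g * (p * q) := by
      simp only [Matrix.mul_assoc]
    rw [this, hpq, Matrix.mul_one]
  have e2 : g * (p * D * q) = p * ((q * g * p) * D) * q := by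
    have : p * ((q * g * p) * D) * q = (p * q) * (g * (p * D * q)) := by
      simp only [Matrix.mul_assoc]
    rw [this, hpq, Matrix.one_mul]
  rw [e, e1, e2, h1]

/-- the projectors are self-adjoint -/
theorem blkE_adj (P : GL (Fin r) K) (cl : Fin r → Fin r) (a : Fin r)
    (Q : Matrix (Fin r) (Fin r) K)
    (hQ : ∀ i j, ((P : Matrix (Fin r) (Fin r) K)ᵀ * Q * (P : Matrix (Fin r) (Fin r) K)) i j ≠ 0 →
      cl i = cl j) : (blkE P cl a)ᵀ * Q = Q * blkE P cl a := by
  set p : Matrix (Fin r) (Fin r) K := (P : Matrix (Fin r) (Fin r) K) with hp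
  set q : Matrix (Fin r) (Fin r) K := ((P⁻¹ : GL (Fin r) K) : Matrix (Fin r) (Fin r) K) with hq
  have hpq : p * q = 1 := blk_coe_mul_inv P
  have hTpq : qᵀ * pᵀ = 1 := by rw [← Matrix.transpose_mul, hpq, Matrix.transpose_one]
  set D : Matrix (Fin r) (Fin r) K := diagonal (fun j => if cl j = a then (1 : K) else 0) with hD
  have h1 : D * (pᵀ * Q * p) = (pᵀ * Q * p) * D := by
    ext i j
    rw [hD, Matrix.diagonal_mul, Matrix.mul_diagonal]
    by_cases h0 : (pᵀ * Q * p) i j = 0
    · rw [h0, mul_zero, zero_mul]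
    · have h2 := hQ i j h0
      rw [h2, mul_comm]
  have e : blkE P cl a = p * D * q := rfl
  have hDt : Dᵀ = D := by rw [hD, Matrix.diagonal_transpose]
  have e1 : (p * D * q)ᵀ * Q = qᵀ * (D * (pᵀ * Q * p)) * q := by
    rw [Matrix.transpose_mul, Matrix.transpose_mul, hDt]
    have : qᵀ * (D * (pᵀ * Q * p)) * q = qᵀ * (D * pᵀ) * Q * (p * q) := by
      simp only [Matrix.mul_assoc]
    rw [this, hpq, Matrix.mul_one]
  have e2 : Q * (p * D * q) = qᵀ * ((pᵀ * Q * p) * D) * q := by
    have : qᵀ * ((pᵀ * Q * p) * D) * q = (qᵀ * pᵀ) * (Q * (p * D * q)) := by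
      simp only [Matrix.mul_assoc]
    rw [this, hTpq, Matrix.one_mul]
  rw [e, e1, e2, h1]

theorem blkE_mul_self (P : GL (Fin r) K) (cl : Fin r → Fin r) (a : Fin r) :
    blkE P cl a * blkE P cl a = blkE P cl a := by
  unfold blkE
  rw [blk_conj_mul, Matrix.diagonal_mul_diagonal]
  congr 3
  funext j
  split_ifs <;> simp

theorem blkE_mul_ne (P : GL (Fin r) K) (cl : Fin r → Fin r) {a b : Fin r} (hab : a ≠ b) :
    blkE P cl a * blkE P cl b = 0 := by
  unfold blkE
  rw [blk_conj_mul, Matrix.diagonal_mul_diagonal]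
  have e : (fun j => (if cl j = a then (1 : K) else 0) * (if cl j = b then (1 : K) else 0)) =
      fun _ => 0 := by
    funext j
    split_ifs with h1 h2
    · exact absurd (h1.symm.trans h2) hab
    · simp
    · simp
    · simp
  rw [e, Matrix.diagonal_zero, Matrix.mul_zero, Matrix.zero_mul]

theorem blkE_sum (P : GL (Fin r) K) (cl : Fin r → Fin r) : ∑ a, blkE P cl a = 1 := by
  unfold blkE
  rw [← Finset.sum_mul, ← Finset.mul_sum]
  have e : ∑ a, diagonal (fun j => if cl j = a then (1 : K) else 0) =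
      (1 : Matrix (Fin r) (Fin r) K) := by
    ext i j
    rw [Matrix.sum_apply]
    by_cases h : i = j
    · subst h
      simp [Matrix.diagonal_apply]
    · simp [Matrix.diagonal_apply, h]
  rw [e, Matrix.mul_one, blk_coe_mul_inv]

/-- enumeration of a block -/
theorem blk_enum (cl : Fin r → Fin r) (a : Fin r) :
    ∃ (r' : ℕ) (f : Fin r' → Fin r), r' = (Finset.univ.filter fun j => cl j = a).card ∧
      Function.Injective f ∧ ∀ j, (∃ i, f i = j) ↔ cl j = a := by
  classical
  obtain ⟨S, hS, hmem⟩ : ∃ S : Finset (Fin r), S = (Finset.univ.filter fun j => cl j = a) ∧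
      ∀ j, j ∈ S ↔ cl j = a := ⟨_, rfl, fun j => by simp⟩
  refine ⟨S.card, fun i => (S.equivFin.symm i : Fin r), by rw [hS], ?_, fun j => ?_⟩
  · intro i i' h
    exact S.equivFin.symm.injective (Subtype.ext h)
  · constructor
    · rintro ⟨i, rfl⟩
      exact (hmem _).1 (S.equivFin.symm i).2
    · intro h
      have h1 : j ∈ S := (hmem j).2 h
      exact ⟨S.equivFin ⟨j, h1⟩, congrArg Subtype.val (S.equivFin.symm_apply_apply ⟨j, h1⟩)⟩

/-- the columns of the block -/
theorem blk_UV (P : GL (Fin r) K) (cl : Fin r → Fin r) (a : Fin r) {r' : ℕ}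
    (f : Fin r' → Fin r) (hf : Function.Injective f) (hr : ∀ j, (∃ i, f i = j) ↔ cl j = a) :
    EM.VV P f * EM.UU P f = 1 ∧ EM.UU P f * EM.VV P f = blkE P cl a := by
  classical
  constructor
  · ext i j
    have h1 := congrFun (congrFun (blk_coe_inv_mul P) (f i)) (f j)
    rw [Matrix.mul_apply] at h1 ⊢
    unfold EM.VV EM.UU
    simp only [Matrix.submatrix_apply, id]
    rw [h1, Matrix.one_apply, Matrix.one_apply]
    by_cases h : i = j
    · rw [if_pos h, if_pos (congrArg f h)]
    · rw [if_neg h, if_neg (fun h' => h (hf h'))]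
  · ext i j
    unfold EM.VV EM.UU blkE
    rw [Matrix.mul_apply, Matrix.mul_apply]
    simp only [Matrix.submatrix_apply, id, Matrix.mul_diagonal]
    have h1 : ∑ x, (P : Matrix (Fin r) (Fin r) K) i (f x) *
        ((P⁻¹ : GL (Fin r) K) : Matrix (Fin r) (Fin r) K) (f x) j =
        ∑ y ∈ Finset.univ.image f, (P : Matrix (Fin r) (Fin r) K) i y *
        ((P⁻¹ : GL (Fin r) K) : Matrix (Fin r) (Fin r) K) y j := by
      rw [Finset.sum_image]
      intro x _ y _ h
      exact hf h
    rw [h1]
    have h2 : Finset.univ.image f = Finset.univ.filter fun j => cl j = a := by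
      ext j
      rw [Finset.mem_image, Finset.mem_filter]
      simp only [Finset.mem_univ, true_and]
      exact hr j
    rw [h2, Finset.sum_filter]
    refine Finset.sum_congr rfl fun y _ => ?_
    split_ifs <;> simp

end EM25

open EM25 in
/-- BLK -/
theorem EH.st_BLK (hBTN : EH.ST_BTN) : EH.ST_BLK := by
  classical
  intro K _ _ r m n Q P cl t hdet hsym hPQ hkill hsize g hg hgb
  set p : Matrix (Fin r) (Fin r) K := (P : Matrix (Fin r) (Fin r) K) with hp
  set q : Matrix (Fin r) (Fin r) K := ((P⁻¹ : GL (Fin r) K) : Matrix (Fin r) (Fin r) K) with hq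
  set g₀ : Matrix (Fin r) (Fin r) K := (g : Matrix (Fin r) (Fin r) K) with hg₀
  have hu : IsUnit Q.det := isUnit_iff_ne_zero.2 hdet
  have hcomm : ∀ a, blkE P cl a * g₀ = g₀ * blkE P cl a := fun a => blkE_comm P cl a g₀ hgb
  have hadj : ∀ a, (blkE P cl a)ᵀ * Q = Q * blkE P cl a := fun a => blkE_adj P cl a Q hPQ
  -- one block
  have hone : ∀ a, pw m (blkE P cl a * g₀ + (1 - blkE P cl a)) * t =
      t * pw n (blkE P cl a * g₀ + (1 - blkE P cl a)) := by
    intro a
    obtain ⟨r', f, hr', hf, hfr⟩ := blk_enum cl a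
    obtain ⟨hVU, hUV⟩ := blk_UV P cl a f hf hfr
    set U := EM.UU P f with hU
    set V := EM.VV P f with hV
    set E := blkE P cl a with hE
    have hEU : E * U = U := by rw [← hUV, Matrix.mul_assoc, hVU, Matrix.mul_one]
    have hVE : V * E = V := by rw [← hUV, ← Matrix.mul_assoc, hVU, Matrix.one_mul]
    set ψ := Uᵀ * Q * U with hψ
    have hQU : Q * U = Vᵀ * ψ := by
      have h1 : Q * U = Eᵀ * Q * U := by
        rw [hadj a, Matrix.mul_assoc, hEU]
      rw [h1, hψ, ← hUV, Matrix.transpose_mul]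
      simp only [Matrix.mul_assoc]
    have hUQ : Uᵀ * Q = ψ * V := by
      have h0 : Uᵀ * Eᵀ = Uᵀ := by rw [← Matrix.transpose_mul, hEU]
      have h1 : Uᵀ * Q = Uᵀ * (Eᵀ * Q) := by rw [← Matrix.mul_assoc, h0]
      rw [h1, hadj a, hψ, show blkE P cl a = U * V from hUV.symm]
      simp only [Matrix.mul_assoc]
    have hψsym : ψᵀ = ψ ∨ ψᵀ = -ψ := by
      have h1 : ψᵀ = Uᵀ * Qᵀ * U := by
        rw [hψ, Matrix.transpose_mul, Matrix.transpose_mul, Matrix.transpose_transpose,
          Matrix.mul_assoc]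
      rcases hsym with h | h
      · left
        rw [h1, h]
      · right
        rw [h1, h, Matrix.mul_neg, Matrix.neg_mul]
    have hψdet : ψ.det ≠ 0 := by
      have h1 : ψ * (V * Q⁻¹ * Vᵀ) = 1 := by
        have e1 : ψ * (V * Q⁻¹ * Vᵀ) = ψ * V * Q⁻¹ * Vᵀ := by simp only [Matrix.mul_assoc]
        rw [e1, ← hUQ, Matrix.mul_assoc Uᵀ Q, Matrix.mul_nonsing_inv _ hu, Matrix.mul_one,
          ← Matrix.transpose_mul, hVU, Matrix.transpose_one]
      intro h0
      have h2 := congrArg Matrix.det h1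
      rw [Matrix.det_mul, h0, zero_mul, Matrix.det_one] at h2
      exact zero_ne_one h2
    -- the block of `g`
    set ga := V * g₀ * U with hga
    have hgaiso : gaᵀ * ψ * ga = ψ := by
      have h1 : gaᵀ = Uᵀ * g₀ᵀ * Vᵀ := by
        rw [hga, Matrix.transpose_mul, Matrix.transpose_mul, Matrix.mul_assoc]
      have h2 : gaᵀ * ψ * ga = Uᵀ * g₀ᵀ * (Vᵀ * ψ) * V * g₀ * U := by
        rw [h1, hga]
        simp only [Matrix.mul_assoc]
      have h3 : Uᵀ * g₀ᵀ * (Q * U) * V * g₀ * U = Uᵀ * g₀ᵀ * Q * ((U * V) * g₀) * U := by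
        simp only [Matrix.mul_assoc]
      rw [h2, ← hQU, h3, hUV, hcomm a]
      have h4 : Uᵀ * g₀ᵀ * Q * (g₀ * E) * U = Uᵀ * (g₀ᵀ * Q * g₀) * (E * U) := by
        simp only [Matrix.mul_assoc]
      rw [h4, hg, hEU]
    have hgadet : IsUnit ga.det := by
      rw [isUnit_iff_ne_zero]
      intro h0
      have h1 := congrArg Matrix.det hgaiso
      rw [Matrix.det_mul, h0, mul_zero] at h1
      exact hψdet h1.symm
    have hres := hBTN K r m n r' ψ U V t hψdet hψsym hVU ?_
      (Matrix.GeneralLinearGroup.mkOfDetNeZero ga (isUnit_iff_ne_zero.1 hgadet)) hgaiso ?_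
    · have e1 : U * ga * V = E * g₀ := by
        have : U * ga * V = (U * V) * g₀ * (U * V) := by
          rw [hga]
          simp only [Matrix.mul_assoc]
        rw [this, hUV, hcomm a, Matrix.mul_assoc, blkE_mul_self]
      have e2 : U * ((Matrix.GeneralLinearGroup.mkOfDetNeZero ga (isUnit_iff_ne_zero.1 hgadet) :
          GL (Fin r') K) : Matrix (Fin r') (Fin r') K) * V + (1 - U * V) = E * g₀ + (1 - E) := by
        rw [hUV, ← e1]
        rfl
      rw [e2] at hres
      exact hres
    · intro Y hY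
      refine hkill (U * Y * V) ?_ ?_
      · have h1 : (U * Y * V)ᵀ = Vᵀ * Yᵀ * Uᵀ := by
          rw [Matrix.transpose_mul, Matrix.transpose_mul, Matrix.mul_assoc]
        have h2 : (U * Y * V)ᵀ * Q + Q * (U * Y * V) = Vᵀ * (Yᵀ * ψ + ψ * Y) * V := by
          have e1 : Vᵀ * Yᵀ * Uᵀ * Q = Vᵀ * Yᵀ * (Uᵀ * Q) := by simp only [Matrix.mul_assoc]
          have e2 : Q * (U * Y * V) = (Q * U) * Y * V := by simp only [Matrix.mul_assoc]
          rw [h1, e1, e2, hUQ, hQU, Matrix.mul_add, Matrix.add_mul]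
          simp only [Matrix.mul_assoc]
        rw [h2, hY, Matrix.mul_zero, Matrix.zero_mul]
      · intro i j hij
        have e1 : q * (U * Y * V) * p = (q * U) * Y * (V * p) := by simp only [Matrix.mul_assoc]
        rw [e1] at hij
        have hqU : ∀ k, cl i ≠ a → (q * U) i k = 0 := by
          intro k hi
          have h1 : (q * U) i k = (1 : Matrix (Fin r) (Fin r) K) i (f k) := by
            rw [← blk_coe_inv_mul P, Matrix.mul_apply, Matrix.mul_apply]
            rfl
          rw [h1, Matrix.one_apply_ne]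
          intro h
          exact hi ((hfr i).1 ⟨k, h.symm⟩)
        have hVp : ∀ k, cl j ≠ a → (V * p) k j = 0 := by
          intro k hj
          have h1 : (V * p) k j = (1 : Matrix (Fin r) (Fin r) K) (f k) j := by
            rw [← blk_coe_inv_mul P, Matrix.mul_apply, Matrix.mul_apply]
            rfl
          rw [h1, Matrix.one_apply_ne]
          intro h
          exact hj ((hfr j).1 ⟨k, h⟩)
        by_contra hne
        apply hij
        by_cases hi : cl i = a
        · have hj : cl j ≠ a := fun h => hne (hi.trans h.symm)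
          rw [Matrix.mul_apply]
          exact Finset.sum_eq_zero fun k _ => by rw [hVp k hj, mul_zero]
        · rw [Matrix.mul_assoc, Matrix.mul_apply]
          exact Finset.sum_eq_zero fun k _ => by rw [hqU k hi, zero_mul]
    · by_cases hex : ∃ k, cl k = a
      · obtain ⟨k, hk⟩ := hex
        rcases hsize with h | h
        · left
          have hψalt : ψᵀ = -ψ := by
            rw [hψ, Matrix.transpose_mul, Matrix.transpose_mul, Matrix.transpose_transpose, h,
              ← Matrix.mul_assoc, Matrix.mul_neg, Matrix.neg_mul]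
          exact Pool.Agent.Helper21.TH.H72.det_alt hψdet hψalt hgaiso
        · right
          have h1 := h k
          rw [hk] at h1
          rw [hr']
          exact h1
      · left
        have h0 : r' = 0 := by
          rw [hr', Finset.card_eq_zero, Finset.filter_eq_empty_iff]
          intro j _ hj
          exact hex ⟨j, hj⟩
        subst h0
        exact Matrix.det_isEmpty
  -- all the blocks
  have hall : ∀ A : Finset (Fin r), pw m ((∑ a ∈ A, blkE P cl a) * g₀ + (1 - ∑ a ∈ A, blkE P cl a)) * t =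
      t * pw n ((∑ a ∈ A, blkE P cl a) * g₀ + (1 - ∑ a ∈ A, blkE P cl a)) := by
    intro A
    induction A using Finset.induction_on with
    | empty =>
      rw [Finset.sum_empty, Matrix.zero_mul, zero_add, sub_zero, pw_one, pw_one, Matrix.one_mul,
        Matrix.mul_one]
    | insert a A ha ih =>
      set EA := ∑ b ∈ A, blkE P cl b with hEA
      have h0 : EA * blkE P cl a = 0 := by
        rw [hEA, Finset.sum_mul]
        exact Finset.sum_eq_zero fun b hb => blkE_mul_ne P cl (fun h => ha (h ▸ hb))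
      have h1 : blkE P cl a * EA = 0 := by
        rw [hEA, Finset.mul_sum]
        exact Finset.sum_eq_zero fun b hb => blkE_mul_ne P cl (fun h => ha (h ▸ hb))
      have h2 : (∑ b ∈ insert a A, blkE P cl b) = blkE P cl a + EA := Finset.sum_insert ha
      have h3 : (blkE P cl a + EA) * g₀ + (1 - (blkE P cl a + EA)) =
          (EA * g₀ + (1 - EA)) * (blkE P cl a * g₀ + (1 - blkE P cl a)) := by
        have e1 : EA * g₀ * (blkE P cl a * g₀) = 0 := by
          rw [Matrix.mul_assoc, ← Matrix.mul_assoc g₀, ← hcomm a, Matrix.mul_assoc,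
            ← Matrix.mul_assoc EA, h0, Matrix.zero_mul]
        have e2 : EA * g₀ * blkE P cl a = 0 := by
          rw [Matrix.mul_assoc, ← hcomm a, ← Matrix.mul_assoc, h0, Matrix.zero_mul]
        have e3 : EA * (blkE P cl a * g₀) = 0 := by
          rw [← Matrix.mul_assoc, h0, Matrix.zero_mul]
        have hx : (EA * g₀ + (1 - EA)) * (blkE P cl a * g₀ + (1 - blkE P cl a)) =
            EA * g₀ * (blkE P cl a * g₀) + EA * g₀ - EA * g₀ * blkE P cl a +
              (blkE P cl a * g₀) + 1 - blkE P cl a - EA * (blkE P cl a * g₀) - EA +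
              EA * blkE P cl a := by
          noncomm_ring
        rw [hx, e1, e2, e3, h0, Matrix.add_mul]
        abel
      rw [h2, h3, pw_mul, pw_mul, Matrix.mul_assoc, hone a, ← Matrix.mul_assoc, ih,
        Matrix.mul_assoc]
  have h1 := hall Finset.univ
  rw [blkE_sum, Matrix.one_mul, sub_self, add_zero] at h1
  rw [Pool.Agent.Helper84.D2.act_iff]
  exact h1
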