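import Pool.Agent.Helper21.EM.Stmts4
import Pool.Agent.Helper74.NA.Nil

/-!
# Project EM, row RDC: derived algebra plus centre
-/

set_option autoImplicit false

open Matrix

namespace EM25

variable {K : Type} [Field K] {n : ℕ}

/-- the trace form -/
noncomputable def trF (L : Submodule K (Matrix (Fin n) (Fin n) K)) : LinearMap.BilinForm K L :=
  LinearMap.mk₂ K (fun x y => ((x : Matrix (Fin n) (Fin n) K) * (y : Matrix (Fin n) (Fin n) K)).trace)
    (fun x x' y => by rw [Submodule.coe_add, Matrix.add_mul, Matrix.trace_add])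
    (fun c x y => by rw [Submodule.coe_smul, Matrix.smul_mul, Matrix.trace_smul])
    (fun x y y' => by rw [Submodule.coe_add, Matrix.mul_add, Matrix.trace_add])
    (fun c x y => by rw [Submodule.coe_smul, Matrix.mul_smul, Matrix.trace_smul])

theorem trF_apply (L : Submodule K (Matrix (Fin n) (Fin n) K)) (x y : L) :
    trF L x y = ((x : Matrix (Fin n) (Fin n) K) * (y : Matrix (Fin n) (Fin n) K)).trace := rfl

theorem comm_adjoin (L : Submodule K (Matrix (Fin n) (Fin n) K)) (y : Matrix (Fin n) (Fin n) K)
    (hy : ∀ D ∈ L, y * D = D * y) :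
    ∀ x ∈ Algebra.adjoin K (L : Set (Matrix (Fin n) (Fin n) K)), y * x = x * y := by
  intro x hx
  induction hx using Algebra.adjoin_induction with
  | mem D hD => exact hy D hD
  | algebraMap c => exact (Algebra.commutes c y).symm
  | add a b _ _ h1 h2 => rw [mul_add, add_mul, h1, h2]
  | mul a b _ _ h1 h2 => rw [← mul_assoc, h1, mul_assoc, h2, mul_assoc]

/-- the trace of a bracket times a matrix which commutes with one of the factors -/
theorem tr_brk (a b z : Matrix (Fin n) (Fin n) K) (hb : b * z = z * b) :
    ((a * b - b * a) * z).trace = 0 := by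
  rw [Matrix.sub_mul, Matrix.trace_sub, Matrix.mul_assoc, hb, ← Matrix.mul_assoc,
    Matrix.trace_mul_comm (a * z) b, ← Matrix.mul_assoc, sub_self]

end EM25

open EM25 in
/-- RDC -/
theorem EH.st_RDC : EH.ST_RDC := by
  intro K _ _ n L hbrk htr hnd
  -- central elements of the derived algebra are zero
  have hz : ∀ y ∈ HG.der L, y ∈ L → (∀ D ∈ L, y * D = D * y) → y = 0 := by
    intro y hy hyL hcen
    have hpow : ∀ k : ℕ, (y * y ^ k).trace = 0 := by
      intro k
      have hc : ∀ D ∈ L, D * y ^ k = y ^ k * D := by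
        intro D hD
        have h1 : Commute y D := hcen D hD
        exact ((h1.pow_left k).symm : Commute D (y ^ k))
      have h2 : ∀ z ∈ HG.der L, (z * y ^ k).trace = 0 := by
        intro z hz
        unfold HG.der at hz
        induction hz using Submodule.span_induction with
        | mem z hz =>
          obtain ⟨a, ha, b, hb, rfl⟩ := hz
          exact tr_brk a b _ (hc b hb)
        | zero => rw [Matrix.zero_mul, Matrix.trace_zero]
        | add z z' _ _ h1 h2 => rw [Matrix.add_mul, Matrix.trace_add, h1, h2, add_zero]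
        | smul c z _ h1 => rw [Matrix.smul_mul, Matrix.trace_smul, h1, smul_zero]
      exact h2 y hy
    have hnil : IsNilpotent y := by
      apply Pool.Agent.Helper74.NA.isNilpotent_of_trace
      intro k hk
      obtain ⟨k, rfl⟩ : ∃ k', k = k' + 1 := ⟨k - 1, by omega⟩
      rw [pow_succ']
      exact hpow k
    apply htr y (Algebra.subset_adjoin hyL)
    intro x hx
    have hcomm : Commute y x := comm_adjoin L y hcen x hx
    exact (Matrix.isNilpotent_trace_of_isNilpotent (hcomm.isNilpotent_mul_right hnil)).eq_zero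
  -- the derived algebra inside `L`
  have hder : HG.der L ≤ L := by
    unfold HG.der
    rw [Submodule.span_le]
    rintro _ ⟨a, ha, b, hb, rfl⟩
    exact hbrk a ha b hb
  set W : Submodule K L := (HG.der L).comap L.subtype with hW
  have hrefl : (trF L).IsRefl := by
    intro x y h
    rw [trF_apply] at h ⊢
    rw [Matrix.trace_mul_comm]
    exact h
  -- the orthogonal of the derived algebra is the centre
  have horth : ∀ x : L, x ∈ (trF L).orthogonal W → ∀ D ∈ L,
      (x : Matrix (Fin n) (Fin n) K) * D = D * (x : Matrix (Fin n) (Fin n) K) := by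
    intro x hx D hD
    have h1 : (x : Matrix (Fin n) (Fin n) K) * D - D * (x : Matrix (Fin n) (Fin n) K) ∈ L :=
      hbrk _ x.2 _ hD
    have h2 := hnd _ h1 (fun B hB => by
      have h3 : D * B - B * D ∈ HG.der L := Submodule.subset_span ⟨D, hD, B, hB, rfl⟩
      have h4 := hx ⟨D * B - B * D, hder h3⟩ h3
      rw [trF_apply] at h4
      change ((D * B - B * D) * (x : Matrix (Fin n) (Fin n) K)).trace = 0 at h4
      rw [Matrix.sub_mul, Matrix.trace_sub] at h4
      rw [Matrix.sub_mul, Matrix.trace_sub]
      have e1 : ((x : Matrix (Fin n) (Fin n) K) * D * B).trace =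
          (D * B * (x : Matrix (Fin n) (Fin n) K)).trace := by
        rw [Matrix.mul_assoc, Matrix.trace_mul_comm]
      have e2 : (D * (x : Matrix (Fin n) (Fin n) K) * B).trace =
          (B * D * (x : Matrix (Fin n) (Fin n) K)).trace := by
        rw [Matrix.trace_mul_comm, ← Matrix.mul_assoc]
      rw [e1, e2]
      exact h4)
    exact sub_eq_zero.1 h2
  have hdis : Disjoint W ((trF L).orthogonal W) := by
    rw [Submodule.disjoint_def]
    intro x hx1 hx2
    have h1 := hz (x : Matrix (Fin n) (Fin n) K) hx1 x.2 (horth x hx2)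
    exact Subtype.ext h1
  have hcompl := (LinearMap.BilinForm.isCompl_orthogonal_iff_disjoint hrefl).2 hdis
  intro A hA
  have h1 : (⟨A, hA⟩ : L) ∈ W ⊔ (trF L).orthogonal W := by
    rw [hcompl.sup_eq_top]
    trivial
  obtain ⟨b, hb, c, hc, hbc⟩ := Submodule.mem_sup.1 h1
  exact ⟨b, hb, c, c.2, horth c hc, (congrArg Subtype.val hbc).symm⟩
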