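import Pool.Agent.Helper21.EM.Stmts

/-!
# Project EM, rows RIB and SMM: Ribet's lemma and the sum over the factors
-/

set_option autoImplicit false

open Matrix MT

namespace EM25

variable {K : Type} [Field K] {n : ℕ}

theorem adj_mul {ψ : Matrix (Fin n) (Fin n) K} (hdet : ψ.det ≠ 0) (X Y : Matrix (Fin n) (Fin n) K) :
    EM.adj ψ (X * Y) = EM.adj ψ Y * EM.adj ψ X := by
  have hu : IsUnit ψ.det := isUnit_iff_ne_zero.2 hdet
  unfold EM.adj
  rw [Matrix.transpose_mul]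
  have e1 : ψ⁻¹ * Y.transpose * ψ * (ψ⁻¹ * X.transpose * ψ) =
      ψ⁻¹ * Y.transpose * (ψ * ψ⁻¹) * (X.transpose * ψ) := by
    simp only [Matrix.mul_assoc]
  rw [e1, Matrix.mul_nonsing_inv _ hu, Matrix.mul_one]
  simp only [Matrix.mul_assoc]

theorem adj_add (ψ : Matrix (Fin n) (Fin n) K) (X Y : Matrix (Fin n) (Fin n) K) :
    EM.adj ψ (X + Y) = EM.adj ψ X + EM.adj ψ Y := by
  unfold EM.adj
  rw [Matrix.transpose_add, Matrix.mul_add, Matrix.add_mul]

theorem adj_neg (ψ : Matrix (Fin n) (Fin n) K) (X : Matrix (Fin n) (Fin n) K) :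
    EM.adj ψ (-X) = -EM.adj ψ X := by
  unfold EM.adj
  rw [Matrix.transpose_neg, Matrix.mul_neg, Matrix.neg_mul]

theorem skew_iff {ψ : Matrix (Fin n) (Fin n) K} (hdet : ψ.det ≠ 0) (A : Matrix (Fin n) (Fin n) K) :
    A.transpose * ψ + ψ * A = 0 ↔ EM.adj ψ A = -A := by
  have hu : IsUnit ψ.det := isUnit_iff_ne_zero.2 hdet
  unfold EM.adj
  constructor
  · intro h
    have h1 : A.transpose * ψ = -(ψ * A) := eq_neg_of_add_eq_zero_left h
    rw [Matrix.mul_assoc, h1, Matrix.mul_neg, ← Matrix.mul_assoc, Matrix.nonsing_inv_mul _ hu,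
      Matrix.one_mul]
  · intro h
    have h1 : ψ * (ψ⁻¹ * A.transpose * ψ) = A.transpose * ψ := by
      rw [← Matrix.mul_assoc, ← Matrix.mul_assoc, Matrix.mul_nonsing_inv _ hu, Matrix.one_mul]
    rw [h, Matrix.mul_neg] at h1
    rw [← h1]
    exact neg_add_cancel _

/-- an element which commutes with a decomposition of one is the sum of its blocks -/
theorem sum_blocks (S : Finset (Matrix (Fin n) (Fin n) K)) (hS : ∑ ε ∈ S, ε = 1)
    (hid : ∀ ε ∈ S, ε * ε = ε) (A : Matrix (Fin n) (Fin n) K) (hA : ∀ ε ∈ S, A * ε = ε * A) :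
    ∑ ε ∈ S, ε * A * ε = A := by
  have h1 : ∑ ε ∈ S, ε * A * ε = ∑ ε ∈ S, ε * A := by
    refine Finset.sum_congr rfl fun ε hε => ?_
    rw [Matrix.mul_assoc, hA ε hε, ← Matrix.mul_assoc, hid ε hε]
  rw [h1, ← Finset.sum_mul, hS, Matrix.one_mul]

theorem blk_mul {ε A B : Matrix (Fin n) (Fin n) K} (hid : ε * ε = ε) (hA : A * ε = ε * A)
    (hB : B * ε = ε * B) : ε * (A * B) * ε = (ε * A * ε) * (ε * B * ε) := by
  have e1 : ε * (A * B) * ε = ε * A * (B * ε) := by simp only [Matrix.mul_assoc]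
  have e2 : (ε * A * ε) * (ε * B * ε) = ε * A * ((ε * ε) * (B * ε)) := by
    simp only [Matrix.mul_assoc]
  rw [e1, e2, hid, hB, ← Matrix.mul_assoc ε ε B, hid]

end EM25

open EM25 in
/-- RIB -/
theorem EM.st_RIB (hPRM : EM.ST_PRM) : EM.ST_RIB := by
  classical
  intro K _ _ n w h ψ L P ε hS hF hε hreal hsur hprf hprs
  obtain ⟨-, -, hort, ⟨S, hSm, hSs⟩, -, -⟩ := hPRM K n w h ψ L P hS hF
  have hcom : ∀ ε' ∈ Prm L, ∀ A ∈ L, A * ε' = ε' * A := fun ε' h' A hA => h'.1 A hA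
  have hid : ∀ ε' ∈ Prm L, ε' * ε' = ε' := fun ε' h' => h'.2.1
  refine ⟨fun _ A hA hAe => ?_, fun hne => absurd hreal hne⟩
  have key : ∀ T : Finset (Matrix (Fin n) (Fin n) K), (∀ ε' ∈ T, ε' ∈ Prm L ∧ ε ≠ ε') →
      ∀ Y : Matrix (Fin n) (Fin n) K, Y.transpose * ψ + ψ * Y = 0 → ε * Y * ε = Y →
        ∃ B ∈ L, ε * B * ε = Y ∧ ∀ ε' ∈ T, ε' * B * ε' = 0 := by
    intro T
    induction T using Finset.induction_on with
    | empty =>
      intro _ Y hY hYe
      obtain ⟨B, hB, hBY⟩ := hsur Y hY hYe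
      exact ⟨B, hB, hBY, fun ε' h' => absurd h' (Finset.notMem_empty ε')⟩
    | insert ε₁ T h₁ ih =>
      intro hT Y hY hYe
      have hYs := hprf Y hY hYe
      clear hY hYe
      have hT1 := hT ε₁ (Finset.mem_insert_self _ _)
      have ih' := ih fun ε' h' => hT ε' (Finset.mem_insert_of_mem h')
      induction hYs using Submodule.span_induction with
      | mem C hC =>
        obtain ⟨X, Z, ⟨hX, hXe⟩, ⟨hZ, hZe⟩, rfl⟩ := hC
        obtain ⟨B, hB, hBX, hBT⟩ := ih' X hX hXe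
        obtain ⟨D, hD, hDZ, hD1⟩ := hprs ε₁ hT1.1 hT1.2 Z hZ hZe
        refine ⟨B * D - D * B, hS.brk B hB D hD, ?_, ?_⟩
        · rw [Matrix.mul_sub, Matrix.sub_mul,
            blk_mul (hid ε hε) (hcom ε hε B hB) (hcom ε hε D hD),
            blk_mul (hid ε hε) (hcom ε hε D hD) (hcom ε hε B hB), hBX, hDZ]
        · intro ε' h'
          have hp : ε' ∈ Prm L := (hT ε' h').1
          rw [Matrix.mul_sub, Matrix.sub_mul,
            blk_mul (hid ε' hp) (hcom ε' hp B hB) (hcom ε' hp D hD),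
            blk_mul (hid ε' hp) (hcom ε' hp D hD) (hcom ε' hp B hB)]
          rcases Finset.mem_insert.1 h' with rfl | h''
          · rw [hD1, Matrix.mul_zero, Matrix.zero_mul, sub_zero]
          · rw [hBT ε' h'', Matrix.mul_zero, Matrix.zero_mul, sub_zero]
      | zero =>
        exact ⟨0, L.zero_mem, by rw [Matrix.mul_zero, Matrix.zero_mul],
          fun ε' _ => by rw [Matrix.mul_zero, Matrix.zero_mul]⟩
      | add C D _ _ h1 h2 =>
        obtain ⟨B, hB, hBC, hBT⟩ := h1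
        obtain ⟨B', hB', hBD, hBT'⟩ := h2
        refine ⟨B + B', L.add_mem hB hB', ?_, ?_⟩
        · rw [Matrix.mul_add, Matrix.add_mul, hBC, hBD]
        · intro ε' h'
          rw [Matrix.mul_add, Matrix.add_mul, hBT ε' h', hBT' ε' h', add_zero]
      | smul c C _ h1 =>
        obtain ⟨B, hB, hBC, hBT⟩ := h1
        refine ⟨c • B, L.smul_mem c hB, ?_, ?_⟩
        · rw [Matrix.mul_smul, Matrix.smul_mul, hBC]
        · intro ε' h'
          rw [Matrix.mul_smul, Matrix.smul_mul, hBT ε' h', smul_zero]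
  obtain ⟨B, hB, hBA, hBT⟩ := key (S.erase ε) (fun ε' h' => by
    obtain ⟨h1, h2⟩ := Finset.mem_erase.1 h'
    exact ⟨(hSm ε').1 h2, fun e => h1 e.symm⟩) A hA hAe
  have h1 := sum_blocks S hSs (fun ε' h' => hid ε' ((hSm ε').1 h')) B
    (fun ε' h' => hcom ε' ((hSm ε').1 h') B hB)
  rw [← Finset.add_sum_erase S (fun ε' => ε' * B * ε') ((hSm ε).2 hε),
    Finset.sum_eq_zero hBT, add_zero, hBA] at h1
  rw [h1]
  exact hB

open EM25 in
/-- SMM -/
theorem EM.st_SMM (hPRM : EM.ST_PRM) : EM.ST_SMM := by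
  classical
  intro K _ _ n w h ψ L D P hS hF hD
  obtain ⟨-, -, hort, ⟨S, hSm, hSs⟩, hinv, hadj⟩ := hPRM K n w h ψ L P hS hF
  have hid : ∀ ε' ∈ Prm L, ε' * ε' = ε' := fun ε' h' => h'.2.1
  have hcom : ∀ A ∈ Lef ψ L, ∀ ε' ∈ Prm L, A * ε' = ε' * A := fun A hA ε' h' => hA.2 ε' h'.1
  have hsk : ∀ A ∈ Lef ψ L, EM.adj ψ A = -A := fun A hA => (skew_iff hS.unit A).1 hA.1
  have hlive : ∀ (ε' A : Matrix (Fin n) (Fin n) K), ε' ∈ Prm L →
      ε' * (ε' * A * ε') * ε' = ε' * A * ε' := by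
    intro ε' A h'
    have e1 : ε' * (ε' * A * ε') * ε' = (ε' * ε') * A * (ε' * ε') := by
      simp only [Matrix.mul_assoc]
    rw [e1, hid ε' h']
  have hab : ∀ A ∈ Lef ψ L, ∀ ε' ∈ Prm L,
      EM.adj ψ (ε' * A * ε') = -(EM.adj ψ ε' * A * EM.adj ψ ε') := by
    intro A hA ε' h'
    rw [adj_mul hS.unit, adj_mul hS.unit, hsk A hA, Matrix.neg_mul, Matrix.mul_neg,
      ← Matrix.mul_assoc]
  -- the part of a real factor
  have hreal : ∀ A ∈ Lef ψ L, ∀ ε' ∈ Prm L, EM.adj ψ ε' = ε' → ε' * A * ε' ∈ D := by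
    intro A hA ε' h' hr
    refine (hD ε' h').1 hr _ ?_ (hlive ε' A h')
    rw [skew_iff hS.unit, hab A hA ε' h', hr]
  refine ⟨?_, ?_⟩
  · unfold HG.der
    rw [Submodule.span_le]
    rintro C ⟨A, hA, B, hB, rfl⟩
    -- the bracket is in `Lef`
    have hC : A * B - B * A ∈ Lef ψ L := by
      refine ⟨?_, ?_⟩
      · rw [skew_iff hS.unit]
        have e0 : A * B - B * A = A * B + -(B * A) := sub_eq_add_neg _ _
        rw [e0, adj_add, adj_neg, adj_mul hS.unit, adj_mul hS.unit, hsk A hA, hsk B hB]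
        rw [Matrix.neg_mul, Matrix.mul_neg, Matrix.neg_mul, Matrix.mul_neg, neg_neg, neg_neg]
        abel
      · intro X hX
        have e1 := hA.2 X hX
        have e2 := hB.2 X hX
        rw [Matrix.sub_mul, Matrix.mul_sub, Matrix.mul_assoc, e2, ← Matrix.mul_assoc, e1,
          Matrix.mul_assoc, Matrix.mul_assoc B A X, e1, ← Matrix.mul_assoc B X A, e2,
          Matrix.mul_assoc X B A]
    set C := A * B - B * A with hCdef
    have htr : ∀ ε' ∈ Prm L, (ε' * C * ε').trace = 0 := by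
      intro ε' h'
      rw [hCdef, Matrix.mul_sub, Matrix.sub_mul, blk_mul (hid ε' h') (hcom A hA ε' h')
        (hcom B hB ε' h'), blk_mul (hid ε' h') (hcom B hB ε' h') (hcom A hA ε' h'),
        Matrix.trace_sub, Matrix.trace_mul_comm, sub_self]
    have hterm : ∀ ε' ∈ Prm L, ε' * C * ε' + EM.adj ψ ε' * C * EM.adj ψ ε' ∈ D := by
      intro ε' h'
      by_cases hr : EM.adj ψ ε' = ε'
      · rw [hr]
        exact D.add_mem (hreal C hC ε' h' hr) (hreal C hC ε' h' hr)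
      · have h1 := (hD ε' h').2 hr (ε' * C * ε') (hlive ε' C h') (htr ε' h')
        rw [hab C hC ε' h', sub_neg_eq_add] at h1
        exact h1
    have hsum1 := sum_blocks S hSs (fun ε' h' => hid ε' ((hSm ε').1 h')) C
      (fun ε' h' => hcom C hC ε' ((hSm ε').1 h'))
    have hsum2 : ∑ ε' ∈ S, EM.adj ψ ε' * C * EM.adj ψ ε' = C := by
      rw [← hsum1]
      refine Finset.sum_nbij' (fun ε' => EM.adj ψ ε') (fun ε' => EM.adj ψ ε') ?_ ?_ ?_ ?_ ?_
      · intro ε' h'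
        exact (hSm _).2 (hadj ε' ((hSm _).1 h'))
      · intro ε' h'
        exact (hSm _).2 (hadj ε' ((hSm _).1 h'))
      · intro ε' h'
        exact (hinv ε' ((hSm _).1 h').1).2
      · intro ε' h'
        exact (hinv ε' ((hSm _).1 h').1).2
      · intro ε' h'
        rw [hsum1]
    have h2 : C + C ∈ D := by
      have h3 : ∑ ε' ∈ S, (ε' * C * ε' + EM.adj ψ ε' * C * EM.adj ψ ε') ∈ D :=
        D.sum_mem fun ε' h' => hterm ε' ((hSm _).1 h')
      rw [Finset.sum_add_distrib, hsum1, hsum2] at h3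
      exact h3
    have h4 : C = (2 : K)⁻¹ • (C + C) := by
      rw [← two_smul K C, smul_smul, inv_mul_cancel₀ two_ne_zero, one_smul]
    show C ∈ D
    rw [h4]
    exact D.smul_mem _ h2
  · intro hall A hA
    have h1 := sum_blocks S hSs (fun ε' h' => hid ε' ((hSm ε').1 h')) A
      (fun ε' h' => hcom A hA ε' ((hSm ε').1 h'))
    rw [← h1]
    exact D.sum_mem fun ε' h' => hreal A hA ε' ((hSm _).1 h') (hall ε' ((hSm _).1 h').1)
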